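import Mathlib
import Pool.Agent.Helper224_BestApprox.Sharp

set_option autoImplicit false

namespace Pool.Agent.Results.MP_f10524_nt.EuclideanSharp

open Filter Topology Pool.Agent.Helper224.BestApprox

/-- The growth rate `liminf M_ν ^ (1/ν)` as an extended real number. -/
noncomputable def G (N : (Fin 2 → ℝ) → ℝ) (θ : Fin 2 → ℝ) : EReal :=
  liminf (fun ν : ℕ => (((M N θ ν : ℝ) ^ (1 / (ν : ℝ)) : ℝ) : EReal)) atTop

lemma tendsto_const_rpow {C φ : ℝ} (hC : 0 < C) (hφ : 0 < φ) :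
    Tendsto (fun ν : ℕ => (C * φ ^ ν) ^ (1 / (ν : ℝ))) atTop (𝓝 φ) := by
  have h1 : Tendsto (fun ν : ℕ => C ^ (1 / (ν : ℝ)) * φ) atTop (𝓝 (C ^ (0 : ℝ) * φ)) := by
    refine Tendsto.mul_const _ ?_
    exact (Real.continuousAt_const_rpow hC.ne').tendsto.comp tendsto_one_div_atTop_nhds_zero_nat
  rw [Real.rpow_zero, one_mul] at h1
  refine h1.congr' ?_
  filter_upwards [eventually_gt_atTop 0] with ν hν
  have hν' : (ν : ℝ) ≠ 0 := by exact_mod_cast hν.ne'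
  rw [Real.mul_rpow hC.le (by positivity), ← Real.rpow_natCast φ ν, ← Real.rpow_mul hφ.le,
    mul_one_div_cancel hν', Real.rpow_one]

lemma le_G {N : (Fin 2 → ℝ) → ℝ} {θ : Fin 2 → ℝ} {C φ : ℝ} (hC : 0 < C) (hφ : 0 < φ)
    (h : ∀ ν, C * φ ^ ν ≤ M N θ ν) : (φ : EReal) ≤ G N θ := by
  have h1 := (continuous_coe_real_ereal.tendsto φ).comp (tendsto_const_rpow hC hφ)
  rw [← h1.liminf_eq]
  refine liminf_le_liminf (Eventually.of_forall fun ν => ?_)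
  simp only [Function.comp_apply, EReal.coe_le_coe_iff]
  exact Real.rpow_le_rpow (by positivity) (h ν) (by positivity)

lemma G_le {N : (Fin 2 → ℝ) → ℝ} {θ : Fin 2 → ℝ} {C φ : ℝ} (hC : 0 < C) (hφ : 0 < φ)
    (h : ∀ ν, (M N θ ν : ℝ) ≤ C * φ ^ ν) : G N θ ≤ (φ : EReal) := by
  have h1 := (continuous_coe_real_ereal.tendsto φ).comp (tendsto_const_rpow hC hφ)
  rw [← h1.liminf_eq]
  refine liminf_le_liminf (Eventually.of_forall fun ν => ?_)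
  simp only [Function.comp_apply, EReal.coe_le_coe_iff]
  exact Real.rpow_le_rpow (by positivity) (h ν) (by positivity)

/-- The growth problem for Euclidean norms. -/
theorem result (φ : ℝ) (hφ : φ ^ 3 = φ + 1) :
    (∀ α β γ : ℝ, 0 < α → β ^ 2 < α * γ → ∀ θ : Fin 2 → ℝ, Admissible θ →
      (∃ ν0 : ℕ, ∀ ν, ν0 ≤ ν →
        M (eucl α β γ) θ (ν + 3) + M (eucl α β γ) θ (ν + 2) ≤ M (eucl α β γ) θ (ν + 5) ∨
        M (eucl α β γ) θ (ν + 2) + M (eucl α β γ) θ (ν + 1) + M (eucl α β γ) θ ν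
          ≤ M (eucl α β γ) θ (ν + 5)) ∧
      (∃ C : ℝ, 0 < C ∧ ∀ ν, C * φ ^ ν ≤ M (eucl α β γ) θ ν)) ∧
    (∃ θ : Fin 2 → ℝ, Admissible θ ∧ ∃ C : ℝ, ∀ ν, (M (eucl 1 0 1) θ ν : ℝ) ≤ C * φ ^ ν) ∧
    IsLeast {g : EReal | ∃ θ : Fin 2 → ℝ, Admissible θ ∧ g = G (eucl 1 0 1) θ} (φ : EReal) := by
  have hφ0 : 0 < φ := by have := (Plastic.phi_bounds hφ).1; linarith
  refine ⟨fun α β γ hα hd θ hθ => ⟨euclid_local hα hd hθ, euclid_lower hφ hα hd hθ⟩,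
    ?_, ?_, ?_⟩
  · obtain ⟨C, -, hC⟩ := Plastic.upper hφ
    exact ⟨Plastic.th φ, Plastic.admissible hφ, C, hC⟩
  · refine ⟨Plastic.th φ, Plastic.admissible hφ, le_antisymm ?_ ?_⟩
    · obtain ⟨C, hC, h⟩ := euclid_lower hφ (α := 1) (β := 0) (γ := 1) one_pos (by norm_num)
        (Plastic.admissible hφ)
      exact le_G hC hφ0 h
    · obtain ⟨C, hC, h⟩ := Plastic.upper hφ
      exact G_le hC hφ0 h
  · rintro g ⟨θ, hθ, rfl⟩
    obtain ⟨C, hC, h⟩ := euclid_lower hφ (α := 1) (β := 0) (γ := 1) one_pos (by norm_num) hθ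
    exact le_G hC hφ0 h

end Pool.Agent.Results.MP_f10524_nt.EuclideanSharp
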